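import Pool.Agent.W668.Uni.Stmts

set_option autoImplicit false

open Set MeasureTheory Pool.Agent.W668.Uni
open scoped ContDiff Topology

namespace Pool.Agent.W722.Uni

noncomputable section

theorem abs_evX_le (f : X) (x : ℝ) : |evX f x| ≤ ‖f‖ := by
  unfold evX
  exact ContinuousMap.norm_coe_le_norm f _

/-- smooth cut-off: `1` for `p ≤ 3/4`, `0` for `p ≥ 7/8` -/
def isoCut (p : ℝ) : ℝ := Real.smoothTransition (7 - 8 * p)

theorem isoCut_one {p : ℝ} (h : p ≤ 3 / 4) : isoCut p = 1 :=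
  Real.smoothTransition.one_of_one_le (by linarith)

theorem isoCut_zero {p : ℝ} (h : 7 / 8 ≤ p) : isoCut p = 0 :=
  Real.smoothTransition.zero_of_nonpos (by linarith)

theorem isoCut_smooth : ContDiff ℝ ∞ isoCut := by
  unfold isoCut
  exact Real.smoothTransition.contDiff.comp (by fun_prop)

/-- the odd cut-off extension of `ε f` -/
def isoF (ε : ℝ) (f : X) (p : ℝ) : ℝ :=
  if 0 ≤ p then ε * evX f p * isoCut p else -(ε * evX f (-p) * isoCut (-p))

theorem isoF_pos (ε : ℝ) (f : X) {p : ℝ} (h : 0 ≤ p) :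
    isoF ε f p = ε * evX f p * isoCut p := by
  unfold isoF
  rw [if_pos h]

theorem isoF_neg (ε : ℝ) (f : X) {p : ℝ} (h : p < 0) :
    isoF ε f p = -(ε * evX f (-p) * isoCut (-p)) := by
  unfold isoF
  rw [if_neg (not_le.2 h)]

theorem isoF_near (ε : ℝ) (f : X) (hf : ∀ x, 0 ≤ x → x ≤ 1 / 4 → evX f x = x) {p : ℝ}
    (h : |p| ≤ 1 / 4) : isoF ε f p = ε * p := by
  rcases le_or_gt 0 p with h0 | h0
  · rw [isoF_pos ε f h0, hf p h0 (le_trans (le_abs_self p) h), isoCut_one, mul_one]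
    linarith [le_abs_self p]
  · have h1 : -p ≤ 1 / 4 := le_trans (neg_le_abs p) h
    rw [isoF_neg ε f h0, hf (-p) (by linarith) h1, isoCut_one (by linarith)]
    ring

theorem isoF_odd (ε : ℝ) (f : X) (hf : ∀ x, 0 ≤ x → x ≤ 1 / 4 → evX f x = x) (p : ℝ) :
    isoF ε f (-p) = -isoF ε f p := by
  rcases lt_trichotomy p 0 with h | h | h
  · rw [isoF_neg ε f h, isoF_pos ε f (by linarith), neg_neg]
  · subst h
    rw [isoF_near ε f hf (by norm_num), isoF_near ε f hf (by norm_num)]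
    ring
  · rw [isoF_pos ε f h.le, isoF_neg ε f (by linarith), neg_neg]

theorem isoF_smoothAt_pos (ε : ℝ) (f : X) (hf : ∀ x, 0 ≤ x → x ≤ 1 / 4 → evX f x = x)
    (hs : ContDiffOn ℝ ∞ (evX f) (Ioo 0 1)) {p : ℝ} (hp : 0 ≤ p) :
    ContDiffAt ℝ ∞ (isoF ε f) p := by
  rcases lt_or_ge p (1 / 4) with h1 | h1
  · have he : isoF ε f =ᶠ[𝓝 p] fun x => ε * x := by
      have : Ioo (-(1 / 4) : ℝ) (1 / 4) ∈ 𝓝 p := Ioo_mem_nhds (by linarith) h1
      filter_upwards [this] with x hx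
      exact isoF_near ε f hf (abs_le.2 ⟨hx.1.le, hx.2.le⟩)
    exact ContDiffAt.congr_of_eventuallyEq (by fun_prop) he
  · rcases lt_or_ge p 1 with h2 | h2
    · have hn : Ioo (0 : ℝ) 1 ∈ 𝓝 p := Ioo_mem_nhds (by linarith) h2
      have he : isoF ε f =ᶠ[𝓝 p] fun x => ε * evX f x * isoCut x := by
        filter_upwards [hn] with x hx
        exact isoF_pos ε f hx.1.le
      refine ContDiffAt.congr_of_eventuallyEq ?_ he
      have h3 : ContDiffAt ℝ ∞ (evX f) p := hs.contDiffAt hn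
      exact (contDiffAt_const.mul h3).mul isoCut_smooth.contDiffAt
    · have he : isoF ε f =ᶠ[𝓝 p] fun _ => (0 : ℝ) := by
        have : Ioi (7 / 8 : ℝ) ∈ 𝓝 p := Ioi_mem_nhds (by linarith)
        filter_upwards [this] with x hx
        have hx' : (7 / 8 : ℝ) < x := hx
        rw [isoF_pos ε f (by linarith), isoCut_zero hx'.le, mul_zero]
      exact ContDiffAt.congr_of_eventuallyEq contDiffAt_const he

theorem isoF_smooth (ε : ℝ) (f : X) (hf : ∀ x, 0 ≤ x → x ≤ 1 / 4 → evX f x = x)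
    (hs : ContDiffOn ℝ ∞ (evX f) (Ioo 0 1)) : ContDiff ℝ ∞ (isoF ε f) := by
  rw [contDiff_iff_contDiffAt]
  intro p
  rcases le_or_gt 0 p with h | h
  · exact isoF_smoothAt_pos ε f hf hs h
  · have he : isoF ε f = fun x => -isoF ε f (-x) := by
      funext x
      rw [isoF_odd ε f hf, neg_neg]
    rw [he]
    have h1 : ContDiffAt ℝ ∞ (isoF ε f) (-p) := isoF_smoothAt_pos ε f hf hs (by linarith)
    exact (h1.comp p (contDiff_neg.contDiffAt)).neg

theorem abs_isoF_le (ε : ℝ) (f : X) (B : ℝ) (hε : 0 ≤ ε) (hB : ε * ‖f‖ ≤ B) (p : ℝ) :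
    |isoF ε f p| ≤ B := by
  have key : ∀ x, |ε * evX f x * isoCut x| ≤ B := by
    intro x
    have h1 := abs_evX_le f x
    have h2 : 0 ≤ isoCut x := Real.smoothTransition.nonneg _
    have h3 : isoCut x ≤ 1 := Real.smoothTransition.le_one _
    rw [abs_mul, abs_mul, abs_of_nonneg hε, abs_of_nonneg h2]
    calc ε * |evX f x| * isoCut x ≤ ε * ‖f‖ * 1 := by gcongr
      _ ≤ B := by linarith
  rcases le_or_gt 0 p with h | h
  · rw [isoF_pos ε f h]
    exact key p
  · rw [isoF_neg ε f h, abs_neg]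
    exact key (-p)

theorem iso_proof : P_ops → P_sol → P_time → P_iso := by
  rintro ⟨⟨O⟩, ⟨EM⟩⟩ hsol htime
  obtain ⟨M, e₀, η, hη, e₂, he₂, he₂0, hf⟩ := hsol O EM
  set ε : ℝ := min (e₂ / 2) (1 / (100 * (|M| + 1))) with hεdef
  have hM1 : 0 < |M| + 1 := by positivity
  have hε : 0 < ε := lt_min (by linarith) (by positivity)
  have hε1 : ε < e₂ := lt_of_le_of_lt (min_le_left _ _) (by linarith)
  have hε2 : ε ≤ 1 / (100 * (|M| + 1)) := min_le_right _ _
  have hε3 : ε * (|M| + 1) ≤ 1 / 100 := by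
    calc ε * (|M| + 1) ≤ 1 / (100 * (|M| + 1)) * (|M| + 1) := by gcongr
      _ = 1 / 100 := by field_simp
  have hε4 : ε ≤ 1 / 100 := by
    have : ε * 1 ≤ ε * (|M| + 1) := by
      have := abs_nonneg M
      gcongr
      linarith
    linarith
  obtain ⟨f, hfM, hfn, hfs, hfm⟩ := hf ε hε hε1
  have hfB : ε * ‖f‖ ≤ 1 / 100 := by
    have h1 : ‖f‖ ≤ |M| + 1 := by linarith [le_abs_self M]
    calc ε * ‖f‖ ≤ ε * (|M| + 1) := by gcongr
      _ ≤ 1 / 100 := hε3
  have hdom : ((ε, O.lift f) : ℝ × Y) ∈ dom e₀ M := by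
    refine ⟨?_, ?_⟩
    · show |ε| < e₀
      rw [abs_of_pos hε]
      linarith
    · exact lt_of_le_of_lt (O.lift_norm f) hfM
  refine ⟨isoF ε f, Real.pi + ε ^ 2 * (Real.pi / 24), isoF_smooth ε f hfn hfs,
    isoF_odd ε f hfn, abs_isoF_le ε f _ hε.le hfB, ?_, ?_, ?_⟩
  · have he : isoF ε f =ᶠ[𝓝 0] fun x => ε * x := by
      have : Ioo (-(1 / 4) : ℝ) (1 / 4) ∈ 𝓝 (0 : ℝ) := Ioo_mem_nhds (by norm_num) (by norm_num)
      filter_upwards [this] with x hx
      exact isoF_near ε f hfn (abs_le.2 ⟨hx.1.le, hx.2.le⟩)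
    rw [he.deriv_eq]
    have : deriv (fun x : ℝ => ε * x) 0 = ε := by
      have := ((hasDerivAt_id (0 : ℝ)).const_mul ε).deriv
      simpa using this
    rw [this]
    exact hε.ne'
  · have h1 : Real.pi + ε ^ 2 * (Real.pi / 24) - Real.pi = ε ^ 2 * (Real.pi / 24) := by ring
    rw [h1, abs_of_nonneg (by positivity)]
    have h2 : ε ^ 2 ≤ (1 / 100) ^ 2 := by gcongr
    have h3 : Real.pi / 24 ≤ 4 / 24 := by linarith [Real.pi_lt_four]
    calc ε ^ 2 * (Real.pi / 24) ≤ (1 / 100) ^ 2 * (4 / 24) := by gcongr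
      _ ≤ 1 / 200 := by norm_num
  · intro y hy
    have hy0 : 0 ≤ y := by linarith [hy.1]
    have hy1 : y ≤ 1 := by linarith [hy.2]
    obtain ⟨ht, hT⟩ := htime O M e₀ η hη (ε, O.lift f) hdom y hy0 hy1
    have hF : ∀ s, 0 ≤ s → s ≤ Real.pi / 2 →
        isoF ε f (y * Real.cos s) = ε * evY (O.lift f) y s := by
      intro s hs0 hs1
      have hc0 : 0 ≤ Real.cos s := Real.cos_nonneg_of_mem_Icc ⟨by linarith [Real.pi_pos], hs1⟩
      have hc1 : Real.cos s ≤ 1 := Real.cos_le_one s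
      have h1 : y * Real.cos s ≤ 3 / 4 := by
        calc y * Real.cos s ≤ y * 1 := by gcongr
          _ ≤ 3 / 4 := by linarith [hy.2]
      rw [isoF_pos ε f (by positivity), isoCut_one h1, mul_one,
        O.lift_ev f y s hy0 hy1 hs0 hs1]
    have hcont : ∀ h : Y, ContinuousOn (fun t => evY h y t) (Icc 0 (Real.pi / 2)) := by
      intro h
      have h1 : Continuous (fun t : ℝ => evY h y t) :=
        (continuous_evY h).comp (continuous_const.prodMk continuous_id)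
      exact h1.continuousOn
    refine ⟨fun t => evY (rho ε (η (ε, O.lift f))) y t,
      fun t => evY (rho (-ε) (η (-ε, O.lift f))) y t, hcont _, hcont _, ?_, ?_⟩
    · intro t htm
      obtain ⟨h1, h2, h3, h4⟩ := ht t htm.1 htm.2
      have hint : ∀ r : ℝ → ℝ, (∫ s in (0 : ℝ)..t, Real.sin s ^ 2 *
          isoF ε f (y * Real.cos s) * r s) = ∫ s in (0 : ℝ)..t, Real.sin s ^ 2 *
          (ε * evY (O.lift f) y s) * r s := by
        intro r
        refine intervalIntegral.integral_congr fun s hs => ?_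
        rw [uIcc_of_le htm.1] at hs
        rw [hF s hs.1 (hs.2.trans htm.2)]
      refine ⟨lt_of_lt_of_le (by norm_num) h1, lt_of_lt_of_le (by norm_num) h2, ?_, ?_⟩
      · rw [hint]
        exact h3
      · rw [hint]
        exact h4
    · rw [hT, hfm y hy.1.le hy1]

end

end Pool.Agent.W722.Uni
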